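import Pool.Agent.Helper10_MWH.NFE
import Pool.Agent.Helper10_MWH.SWH
import Pool.Agent.Helper13_MWH.SHW
import Pool.Agent.Helper13_MWH.UX1
import Pool.Agent.Helper13_MWS.DBA
import Pool.Agent.Helper13_MWS.TLP
import Pool.Agent.Helper15_MWL.FLB
import Pool.Agent.Helper16_MWS.CMP
import Pool.Agent.Helper19_MWH.J2S
import Pool.Agent.Helper19_MWL.TA2
import Pool.Agent.Helper19_MWS.JPI
import Pool.Agent.Helper22_MWH.PS0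
import Pool.Agent.Helper22_MWL.ABS
import Pool.Agent.Helper23_MWH.ENN
import Pool.Agent.Helper23_MWH.J11
import Pool.Agent.Helper23_MWH.KK1
import Pool.Agent.Helper23_MWH.KK2
import Pool.Agent.Helper23_MWS.NDN
import Pool.Agent.Helper24_MWH.JLL
import Pool.Agent.Helper24_MWH.K10
import Pool.Agent.Helper24_MWH.KK9
import Pool.Agent.Helper26_MWS.LBB
import Pool.Agent.Helper27_MWS.GLD
import Pool.Agent.Helper2_MWH.V01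
import Pool.Agent.Helper2_MWS.D2F
import Pool.Agent.Helper30_MWH.EK5
import Pool.Agent.Helper30_MWH.ERI
import Pool.Agent.Helper30_MWH.LT4
import Pool.Agent.Helper30_MWL.NDF
import Pool.Agent.Helper30_MWS.BFX
import Pool.Agent.Helper31_MVO.COM
import Pool.Agent.Helper33_MWH.LHR
import Pool.Agent.Helper33_MWH.TLH
import Pool.Agent.Helper33_MWH.TLL
import Pool.Agent.Helper34_MWH.KP2
import Pool.Agent.Helper34_MWL.LAW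
import Pool.Agent.Helper36_MWH.DI5
import Pool.Agent.Helper36_MWH.ENL
import Pool.Agent.Helper36_MWH.LT3
import Pool.Agent.Helper36_MWH.SWT
import Pool.Agent.Helper36_MWS.MAS
import Pool.Agent.Helper37_MWS.CHK
import Pool.Agent.Helper38_MVO.REN
import Pool.Agent.Helper39_MWH.EHH
import Pool.Agent.Helper39_MWH.NRX
import Pool.Agent.Helper39_MWH.U1L
import Pool.Agent.Helper39_MWH.UX3
import Pool.Agent.Helper39_MWH.UX4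
import Pool.Agent.Helper39_MWS.BLK
import Pool.Agent.Helper39_MWS.SHS
import Pool.Agent.Helper3_MWH.EDC
import Pool.Agent.Helper3_MWL.JPR
import Pool.Agent.Helper3_MWS.TLM
import Pool.Agent.Helper43_MWH.UX2
import Pool.Agent.Helper45_MWL.RMV
import Pool.Agent.Helper45_MWS.CHN
import Pool.Agent.Helper46_MWH.EDV
import Pool.Agent.Helper46_MWH.HVJ
import Pool.Agent.Helper49_MWH.JPC
import Pool.Agent.Helper49_MWH.U10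
import Pool.Agent.Helper51_MWH.BJ4
import Pool.Agent.Helper51_MWL.DMX
import Pool.Agent.Helper52_MWH.KHH
import Pool.Agent.Helper52_MWL.TAB
import Pool.Agent.Helper54_MWL.HVP
import Pool.Agent.Helper59_MWH.ABI
import Pool.Agent.Helper59_MWH.ABJ
import Pool.Agent.Helper59_MWH.U01
import Pool.Agent.Helper59_MWH.U11
import Pool.Agent.Helper59_MWH.UEV
import Pool.Agent.Helper5_MVO.ONE
import Pool.Agent.Helper60_MWH.J01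
import Pool.Agent.Helper60_MWH.J10
import Pool.Agent.Helper60_MWH.J1L
import Pool.Agent.Helper60_MWH.JEV
import Pool.Agent.Helper60_MWH.JX1
import Pool.Agent.Helper60_MWH.JX2
import Pool.Agent.Helper60_MWH.JX3
import Pool.Agent.Helper60_MWH.JX4
import Pool.Agent.Helper60_MWH.K01
import Pool.Agent.Helper60_MWH.KP1
import Pool.Agent.Helper60_MWH.OKW
import Pool.Agent.Helper60_MWH.PSL
import Pool.Agent.Helper60_MWS.SAT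
import Pool.Agent.Helper64_MWH.ALL
import Pool.Agent.Helper67_MWH.VP2
import Pool.Agent.Helper67_MWS.NRM
import Pool.Agent.Helper67_MWS.RDC
import Pool.Agent.Helper69_MWH.JPX
import Pool.Agent.Helper69_MWH.TJP
import Pool.Agent.Helper69_MWL.JFC
import Pool.Agent.Helper6_MWH.PIN
import Pool.Agent.Helper70_MWH.DI4
import Pool.Agent.Helper73_MWH.LT2
import Pool.Agent.Helper74_MWS.CMM
import Pool.Agent.Helper75_MWH.ABO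
import Pool.Agent.Helper75_MWH.EL4
import Pool.Agent.Helper75_MWL.TA1
import Pool.Agent.Helper75_MWS.NSP
import Pool.Agent.Helper76_MWH.EG4
import Pool.Agent.Helper77_MWH.LHL
import Pool.Agent.Helper77_MWL.TRN
import Pool.Agent.Helper77_MWS.CAP
import Pool.Agent.Helper7_MWH.TDI
import Pool.Agent.Helper7_MWL.KEY
import Pool.Agent.Helper7_MWS.DBL
import Pool.Agent.Helper80_MWH.EL5
import Pool.Agent.Helper81_MWS.MJE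
import Pool.Agent.Helper81_MWS.MJO
import Pool.Agent.Helper82_MWS.BLR
import Pool.Agent.Helper88_MWL.PRM
import Pool.Agent.Helper89_MWH.EG5
import Pool.Agent.Helper8_MWH.BJ5
import Pool.Agent.Helper8_MWS.LRN
import Pool.Agent.Helper90_MWL.CLO
import Pool.Agent.Helper92_MWS.DGN
import Pool.Agent.Helper92_MWS.FRE
import Pool.Agent.Helper94_MWH.EK4
import Pool.Agent.Helper94_MWS.STA
import Pool.Agent.Helper97_MWL.ARR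
import Pool.Agent.Helper99_MWH.NFW
import Pool.Agent.Helper9_MWH.TEP
import Pool.Agent.Helper9_MWH.V10

/-!
# MP_23468a_al, base (h): composition of the rows (generated)
-/

namespace Pool.Agent.MWH.Comp1

theorem c_MWS_Gld : Pool.Agent.MWS.GldStmt :=
  Pool.Agent.MWS.H27.gld 
theorem c_MWS_Cap : Pool.Agent.MWS.CapStmt :=
  Pool.Agent.MWS.H77.cap 
theorem c_MVO_Com : Pool.Agent.MVO.ComStmt :=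
  Pool.Agent.MVO.H31.com 
theorem c_MWS_Cmm : Pool.Agent.MWS.CmmStmt :=
  Pool.Agent.MWS.H74.cmm c_MVO_Com
theorem c_MWS_Cmp : Pool.Agent.MWS.CmpStmt :=
  Pool.Agent.MWS.H16.cmp c_MWS_Cmm
theorem c_MWS_Dgn : Pool.Agent.MWS.DgnStmt :=
  Pool.Agent.MWS.H92.dgn c_MWS_Cap c_MWS_Cmm c_MWS_Cmp
theorem c_MVO_Ren : Pool.Agent.MVO.RenStmt :=
  Pool.Agent.MVO.H38.ren 
theorem c_MWS_Nrm : Pool.Agent.MWS.NrmStmt :=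
  Pool.Agent.MWS.H67.nrm c_MWS_Cap
theorem c_MWS_Blk : Pool.Agent.MWS.BlkStmt :=
  Pool.Agent.MWS.H39.blk c_MVO_Ren c_MWS_Nrm
theorem c_MWS_Tlp : Pool.Agent.MWS.TlpStmt :=
  Pool.Agent.MWS.H13.tlp 
theorem c_MVO_One : Pool.Agent.MVO.OneStmt :=
  Pool.Agent.MVO.H5.one 
theorem c_MWL_Trn : Pool.Agent.MWL.TrnStmt :=
  Pool.Agent.MWL.H77.trn 
theorem c_MWL_Hvp : Pool.Agent.MWL.HvpStmt :=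
  Pool.Agent.MWL.H54.hvp 
theorem c_MWL_Abs : Pool.Agent.MWL.AbsStmt :=
  Pool.Agent.MWL.H22.abs c_MWL_Trn c_MWL_Hvp
theorem c_MWL_Key : Pool.Agent.MWL.KeyStmt :=
  Pool.Agent.MWL.H7.key c_MWL_Trn c_MWL_Hvp c_MWL_Abs
theorem c_MWL_Ndf : Pool.Agent.MWL.NdfStmt :=
  Pool.Agent.MWL.H30.ndf 
theorem c_MWS_Ndn : Pool.Agent.MWS.NdnStmt :=
  Pool.Agent.MWS.H23.ndn c_MWL_Ndf c_MWS_Cap
theorem c_MWS_Lrn : Pool.Agent.MWS.LrnStmt :=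
  Pool.Agent.MWS.H8.lrn 
theorem c_MWS_Chk : Pool.Agent.MWS.ChkStmt :=
  Pool.Agent.MWS.H37.chk 
theorem c_MWS_Dbl : Pool.Agent.MWS.DblStmt :=
  Pool.Agent.MWS.H7.dbl 
theorem c_MWS_Blr : Pool.Agent.MWS.BlrStmt :=
  Pool.Agent.MWS.H82.blr 
theorem c_MWS_Dba : Pool.Agent.MWS.DbaStmt :=
  Pool.Agent.MWS.H13.dba c_MWS_Blr c_MWS_Dbl
theorem c_MWS_Sat : Pool.Agent.MWS.SatStmt :=
  Pool.Agent.MWS.H60.sat c_MWL_Trn c_MWL_Abs c_MWS_Lrn c_MWS_Chk c_MWS_Dbl c_MWS_Dba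
theorem c_MWS_Sta : Pool.Agent.MWS.StaStmt :=
  Pool.Agent.MWS.H94.sta c_MVO_One c_MWL_Trn c_MWS_Sat
theorem c_MWS_Shs : Pool.Agent.MWS.ShsStmt :=
  Pool.Agent.MWS.H39.shs c_MVO_One c_MWL_Trn c_MWL_Key c_MWS_Ndn c_MWS_Lrn c_MWS_Sta
theorem c_MWS_D2f : Pool.Agent.MWS.D2fStmt :=
  Pool.Agent.MWS.H2.d2f c_MVO_One c_MWS_Shs
theorem c_MWL_Dmx : Pool.Agent.MWL.DmxStmt :=
  Pool.Agent.MWL.H51.dmx c_MWL_Hvp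
theorem c_MWL_Arr : Pool.Agent.MWL.ArrStmt :=
  Pool.Agent.MWL.H97.arr c_MWL_Trn c_MWL_Hvp c_MWL_Abs
theorem c_MWL_Ta1 : Pool.Agent.MWL.Ta1Stmt :=
  Pool.Agent.MWL.H75.ta1 c_MWL_Trn c_MWL_Hvp c_MWL_Abs c_MWL_Arr
theorem c_MWL_Ta2 : Pool.Agent.MWL.Ta2Stmt :=
  Pool.Agent.MWL.H19.ta2 c_MWL_Trn c_MWL_Hvp c_MWL_Abs c_MWL_Arr c_MWL_Ta1
theorem c_MWL_Tab : Pool.Agent.MWL.TabStmt :=
  Pool.Agent.MWL.H52.tab c_MWL_Hvp c_MWL_Ta1 c_MWL_Ta2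
theorem c_MWL_Rmv : Pool.Agent.MWL.RmvStmt :=
  Pool.Agent.MWL.H45.rmv c_MWL_Hvp
theorem c_MWL_Clo : Pool.Agent.MWL.CloStmt :=
  Pool.Agent.MWL.H90.clo c_MWL_Trn c_MWL_Hvp c_MWL_Abs c_MWL_Rmv
theorem c_MWL_Flb : Pool.Agent.MWL.FlbStmt :=
  Pool.Agent.MWL.H15.flb c_MWL_Key c_MWL_Trn c_MWL_Tab c_MWL_Rmv c_MWL_Clo
theorem c_MWL_Prm : Pool.Agent.MWL.PrmStmt :=
  Pool.Agent.MWL.H88.prm c_MWL_Hvp c_MWL_Arr c_MWL_Ta1 c_MWL_Ta2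
theorem c_MWL_Jpr : Pool.Agent.MWL.JprStmt :=
  Pool.Agent.MWL.H3.jpr c_MWL_Trn c_MWL_Hvp c_MWL_Abs c_MWL_Key c_MWL_Prm
theorem c_MWL_Jfc : Pool.Agent.MWL.JfcStmt :=
  Pool.Agent.MWL.H69.jfc c_MWL_Rmv
theorem c_MWL_Law : Pool.Agent.MWL.LawStmt :=
  Pool.Agent.MWL.H34.law c_MWL_Dmx c_MWL_Flb c_MWL_Jpr c_MWL_Jfc
theorem c_MWS_Chn : Pool.Agent.MWS.ChnStmt :=
  Pool.Agent.MWS.H45.chn c_MWS_Nrm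
theorem c_MWS_Mjo : Pool.Agent.MWS.MjoStmt :=
  Pool.Agent.MWS.H81.mjo c_MVO_One c_MWL_Law c_MWS_Chn c_MWS_Ndn c_MWS_Lrn c_MWS_Shs
theorem c_MWS_Nsp : Pool.Agent.MWS.NspStmt :=
  Pool.Agent.MWS.H75.nsp c_MWS_Cap
theorem c_MWS_Mje : Pool.Agent.MWS.MjeStmt :=
  Pool.Agent.MWS.H81.mje c_MWS_Nsp
theorem c_MWS_Tlm : Pool.Agent.MWS.TlmStmt :=
  Pool.Agent.MWS.H3.tlm c_MWS_Gld c_MWS_Dgn c_MWS_Blk c_MWS_Tlp c_MWS_D2f c_MWS_Mjo c_MWS_Mje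
theorem c_MWS_Bfx : Pool.Agent.MWS.BfxStmt :=
  Pool.Agent.MWS.H30.bfx 
theorem c_MWS_Rdc : Pool.Agent.MWS.RdcStmt :=
  Pool.Agent.MWS.H67.rdc 
theorem c_MWS_Fre : Pool.Agent.MWS.FreStmt :=
  Pool.Agent.MWS.H92.fre 
theorem c_MWS_Lbb : Pool.Agent.MWS.LbbStmt :=
  Pool.Agent.MWS.H26.lbb c_MWS_Bfx
theorem c_MWS_Mas : Pool.Agent.MWS.MasStmt :=
  Pool.Agent.MWS.H36.mas c_MWS_Bfx c_MWS_Rdc c_MWS_Fre c_MWS_Lbb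
theorem c_MWH_Nfe : Pool.Agent.MWH.NfeStmt :=
  Pool.Agent.MWH.H10.nfe c_MWS_Mas
theorem c_MWH_Swh : Pool.Agent.MWH.SwhStmt :=
  Pool.Agent.MWH.H10.swh c_MWS_Mas c_MWH_Nfe
theorem c_MWH_Okw : Pool.Agent.MWH.OkwStmt :=
  Pool.Agent.MWH.H60.okw 
theorem c_MWH_Swt : Pool.Agent.MWH.SwtStmt :=
  Pool.Agent.MWH.H36.swt c_MWH_Nfe c_MWH_Okw
theorem c_MWH_Nfw : Pool.Agent.MWH.NfwStmt :=
  Pool.Agent.MWH.H99.nfw c_MWH_Nfe c_MWH_Okw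
theorem c_MWH_Shw : Pool.Agent.MWH.ShwStmt :=
  Pool.Agent.MWH.H13.shw c_MWH_Nfe c_MWH_Okw
theorem c_MWH_All : Pool.Agent.MWH.AllStmt :=
  Pool.Agent.MWH.H64.all c_MWH_Nfe c_MWH_Okw
theorem c_MWH_Abi : Pool.Agent.MWH.AbiStmt :=
  Pool.Agent.MWH.H59.abi c_MWS_Sat c_MWH_Nfe c_MWH_Okw
theorem c_MWH_Abj : Pool.Agent.MWH.AbjStmt :=
  Pool.Agent.MWH.H59.abj c_MWS_Sat c_MWH_Nfe c_MWH_Okw
theorem c_MWH_Nrx : Pool.Agent.MWH.NrxStmt :=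
  Pool.Agent.MWH.H39.nrx c_MWL_Trn c_MWH_Abi c_MWH_Abj
theorem c_MWH_Edv : Pool.Agent.MWH.EdvStmt :=
  Pool.Agent.MWH.H46.edv c_MWH_Nfe c_MWH_Okw c_MWH_Nfw c_MWH_Shw c_MWH_Swt c_MWH_All c_MWH_Nrx
theorem c_MWH_Ps0 : Pool.Agent.MWH.Ps0Stmt :=
  Pool.Agent.MWH.H22.ps0 c_MWH_Nfe c_MWH_Okw
theorem c_MWH_Pin : Pool.Agent.MWH.PinStmt :=
  Pool.Agent.MWH.H6.pin c_MWH_Ps0
theorem c_MWH_Tlh : Pool.Agent.MWH.TlhStmt :=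
  Pool.Agent.MWH.H33.L.tlh c_MWH_Swt c_MWH_All c_MWH_Pin
theorem c_MWH_Tll : Pool.Agent.MWH.TllStmt :=
  Pool.Agent.MWH.H33.T.tll c_MWH_Swt c_MWH_Pin
theorem c_MWS_Jpi : Pool.Agent.MWS.JpiStmt :=
  Pool.Agent.MWS.H19.jpi c_MWS_Chn
theorem c_MWH_Jpx : Pool.Agent.MWH.JpxStmt :=
  Pool.Agent.MWH.H69.jpx c_MVO_One c_MWL_Trn c_MWL_Abs c_MWL_Key c_MWS_Lrn c_MWS_Ndn c_MWS_Jpi c_MWH_Nfe c_MWH_Okw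
theorem c_MWH_Abo : Pool.Agent.MWH.AboStmt :=
  Pool.Agent.MWH.H75.abo c_MWS_Sat c_MWH_Nfe c_MWH_Okw
theorem c_MWH_Tjp : Pool.Agent.MWH.TjpStmt :=
  Pool.Agent.MWH.H69T.tjp c_MWS_Lrn c_MWL_Hvp c_MWH_Swt c_MWH_Jpx c_MWH_Abi c_MWH_Abj c_MWH_Abo c_MWH_Tlh c_MWH_Tll
theorem c_MWH_Tep : Pool.Agent.MWH.TepStmt :=
  Pool.Agent.MWH.H9.tep c_MWS_Lrn c_MWL_Hvp c_MWH_Swt c_MWH_Edv c_MWH_Tlh c_MWH_Tll c_MWH_Tjp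
theorem c_MWH_Tdi : Pool.Agent.MWH.TdiStmt :=
  Pool.Agent.MWH.H7.tdi c_MWS_Tlm c_MWH_Swh c_MWH_Tep
theorem c_MWH_Bj4 : Pool.Agent.MWH.Bj4Stmt :=
  Pool.Agent.MWH.H51.bj4 
theorem c_MWH_Khh : Pool.Agent.MWH.KhhStmt :=
  Pool.Agent.MWH.H52.khh c_MWH_Nfe c_MWH_Okw c_MWH_Swt c_MWH_Pin
theorem c_MWH_Ehh : Pool.Agent.MWH.EhhStmt :=
  Pool.Agent.MWH.H39.ehh c_MWH_Khh
theorem c_MWH_Lt3 : Pool.Agent.MWH.Lt3Stmt :=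
  Pool.Agent.MWH.H36.lt3 c_MWL_Hvp c_MWL_Arr c_MWL_Ta2
theorem c_MWH_Kk1 : Pool.Agent.MWH.Kk1Stmt :=
  Pool.Agent.MWH.H23.kk1 c_MWH_Swt c_MWH_All c_MWH_Pin c_MWH_Khh
theorem c_MWH_Enl : Pool.Agent.MWH.EnlStmt :=
  Pool.Agent.MWH.H36.enl c_MWS_Lrn c_MWH_Lt3 c_MWH_Kk1
theorem c_MWH_Lt4 : Pool.Agent.MWH.Lt4Stmt :=
  Pool.Agent.MWH.H30L.lt4 c_MWL_Hvp c_MWL_Arr c_MWL_Ta1 c_MWL_Ta2
theorem c_MWH_Lhr : Pool.Agent.MWH.LhrStmt :=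
  Pool.Agent.MWH.H33.lhr c_MWH_Swt c_MWH_Pin
theorem c_MWH_Psl : Pool.Agent.MWH.PslStmt :=
  Pool.Agent.MWH.H60.psl c_MWH_Nfe c_MWH_Okw
theorem c_MWH_Ux1 : Pool.Agent.MWH.Ux1Stmt :=
  Pool.Agent.MWH.H13.ux1 c_MWH_Psl c_MWH_Pin
theorem c_MWH_Lt2 : Pool.Agent.MWH.Lt2Stmt :=
  Pool.Agent.MWH.H73.lt2 c_MWL_Arr c_MWL_Ta2
theorem c_MWH_Jpc : Pool.Agent.MWH.JpcStmt :=
  Pool.Agent.MWH.H49.jpc c_MWS_Lrn c_MWH_Lt2 c_MWH_Jpx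
theorem c_MWH_Kk2 : Pool.Agent.MWH.Kk2Stmt :=
  Pool.Agent.MWH.H23.kk2 c_MWH_Swt c_MWH_Pin
theorem c_MWH_J2s : Pool.Agent.MWH.J2sStmt :=
  Pool.Agent.MWH.H19.j2s c_MWS_Lrn c_MWH_Lt2 c_MWH_Abi c_MWH_Abj c_MWH_Khh c_MWH_Kk1 c_MWH_Kk2
theorem c_MWH_Jx1 : Pool.Agent.MWH.Jx1Stmt :=
  Pool.Agent.MWH.H60.jx1 c_MWH_Jpc c_MWH_Abo c_MWH_J2s
theorem c_MWH_Eri : Pool.Agent.MWH.EriStmt :=
  Pool.Agent.MWH.H30.eri c_MWS_Lrn c_MWH_Lt4 c_MWH_Lhr c_MWH_Ux1 c_MWH_Jx1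
theorem c_MWH_Enn : Pool.Agent.MWH.EnnStmt :=
  Pool.Agent.MWH.H23.enn c_MWS_Lrn c_MWH_Lt3 c_MWH_Kk2
theorem c_MWH_Jll : Pool.Agent.MWH.JllStmt :=
  Pool.Agent.MWH.H24.jll c_MWS_Lrn c_MWH_Lt2 c_MWH_Jpc c_MWH_J2s
theorem c_MWH_Edc : Pool.Agent.MWH.EdcStmt :=
  Pool.Agent.MWH.H3.edc c_MWH_Swt c_MWH_Edv c_MWH_Ehh c_MWH_Enl c_MWH_Eri c_MWH_Enn c_MWH_Jll
theorem c_MWH_Lhl : Pool.Agent.MWH.LhlStmt :=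
  Pool.Agent.MWH.H77.lhl c_MWH_Swt c_MWH_Pin
theorem c_MWH_Ux2 : Pool.Agent.MWH.Ux2Stmt :=
  Pool.Agent.MWH.H43.ux2 c_MWH_Psl c_MWH_Pin
theorem c_MWH_Ux3 : Pool.Agent.MWH.Ux3Stmt :=
  Pool.Agent.MWH.H39.ux3 c_MWH_Psl c_MWH_Pin
theorem c_MWH_Ux4 : Pool.Agent.MWH.Ux4Stmt :=
  Pool.Agent.MWH.H39.ux4 c_MWH_Psl c_MWH_Pin
theorem c_MWH_Jx2 : Pool.Agent.MWH.Jx2Stmt :=
  Pool.Agent.MWH.H60.jx2 c_MWH_Jpc c_MWH_Abo c_MWH_J2s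
theorem c_MWH_Jx3 : Pool.Agent.MWH.Jx3Stmt :=
  Pool.Agent.MWH.H60.jx3 c_MWH_Jpc c_MWH_Abj c_MWH_Abo c_MWH_Lhl c_MWH_J2s
theorem c_MWH_Jx4 : Pool.Agent.MWH.Jx4Stmt :=
  Pool.Agent.MWH.H60.jx4 c_MWH_Jpc c_MWH_Abj c_MWH_Abo c_MWH_Lhl c_MWH_J2s
theorem c_MWH_El4 : Pool.Agent.MWH.El4Stmt :=
  Pool.Agent.MWH.H75.el4 c_MWS_Lrn c_MWH_Lt4 c_MWH_Bj4 c_MWH_Lhl c_MWH_Ux2 c_MWH_Ux3 c_MWH_Ux4 c_MWH_Jx2 c_MWH_Jx3 c_MWH_Jx4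
theorem c_MWH_Kk9 : Pool.Agent.MWH.Kk9Stmt :=
  Pool.Agent.MWH.H24.kk9 c_MWH_Pin
theorem c_MWH_U10 : Pool.Agent.MWH.U10Stmt :=
  Pool.Agent.MWH.H49.u10 c_MWH_Ps0 c_MWH_Pin
theorem c_MWH_U01 : Pool.Agent.MWH.U01Stmt :=
  Pool.Agent.MWH.H59.u01 c_MWH_Ps0 c_MWH_Pin
theorem c_MWH_U1l : Pool.Agent.MWH.U1lStmt :=
  Pool.Agent.MWH.H39.u1l c_MWH_Ps0 c_MWH_Pin
theorem c_MWH_V10 : Pool.Agent.MWH.V10Stmt :=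
  Pool.Agent.MWH.H9.v10 c_MWH_Ps0 c_MWH_Pin
theorem c_MWH_V01 : Pool.Agent.MWH.V01Stmt :=
  Pool.Agent.MWH.H2.v01 c_MWH_Ps0 c_MWH_Pin
theorem c_MWH_J10 : Pool.Agent.MWH.J10Stmt :=
  Pool.Agent.MWH.H60.j10 c_MWH_Jpc c_MWH_Abj c_MWH_Abo c_MWH_Lhr c_MWH_J2s
theorem c_MWH_J01 : Pool.Agent.MWH.J01Stmt :=
  Pool.Agent.MWH.H60.j01 c_MWH_Jpc c_MWH_Abj c_MWH_Abo c_MWH_Lhr c_MWH_J2s
theorem c_MWH_J1l : Pool.Agent.MWH.J1lStmt :=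
  Pool.Agent.MWH.H60.j1l c_MWH_Jpc c_MWH_Abj c_MWH_Abo c_MWH_Lhr c_MWH_Kk9 c_MWH_J2s
theorem c_MWH_Hvj : Pool.Agent.MWH.HvjStmt :=
  Pool.Agent.MWH.H46.hvj c_MWS_Lrn c_MWL_Hvp c_MWH_Abj
theorem c_MWH_K10 : Pool.Agent.MWH.K10Stmt :=
  Pool.Agent.MWH.H24.k10 c_MWH_Jpc c_MWH_Abj c_MWH_Abo c_MWH_Hvj c_MWH_Lhr c_MWH_J2s
theorem c_MWH_K01 : Pool.Agent.MWH.K01Stmt :=
  Pool.Agent.MWH.H60.k01 c_MWH_Jpc c_MWH_Abj c_MWH_Abo c_MWH_Hvj c_MWH_Lhr c_MWH_J2s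
theorem c_MWH_Eg4 : Pool.Agent.MWH.Eg4Stmt :=
  Pool.Agent.MWH.H76.eg4 c_MWS_Lrn c_MWH_Lt3 c_MWH_Lt4 c_MWH_Bj4 c_MWH_Kk9 c_MWH_U10 c_MWH_U01 c_MWH_U1l c_MWH_V10 c_MWH_V01 c_MWH_J10 c_MWH_J01 c_MWH_J1l c_MWH_K10 c_MWH_K01
theorem c_MWH_Uev : Pool.Agent.MWH.UevStmt :=
  Pool.Agent.MWH.H59.uev c_MWH_Ps0 c_MWH_Pin
theorem c_MWH_Vp1 : Pool.Agent.MWH.Vp1Stmt :=
  Pool.Agent.MWH.H67.vp1 c_MWH_Ps0 c_MWH_Pin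
theorem c_MWH_Vp2 : Pool.Agent.MWH.Vp2Stmt :=
  Pool.Agent.MWH.H67.vp2 c_MWH_Ps0 c_MWH_Pin
theorem c_MWH_Jev : Pool.Agent.MWH.JevStmt :=
  Pool.Agent.MWH.H60.jev c_MWH_Jpc c_MWH_Abj c_MWH_Abo c_MWH_Lhl c_MWH_J2s
theorem c_MWH_Kp1 : Pool.Agent.MWH.Kp1Stmt :=
  Pool.Agent.MWH.H60.kp1 c_MWH_Jpc c_MWH_Abj c_MWH_Abo c_MWH_Hvj c_MWH_Lhl c_MWH_J2s
theorem c_MWH_Kp2 : Pool.Agent.MWH.Kp2Stmt :=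
  Pool.Agent.MWH.H34.kp2 c_MWH_Jpc c_MWH_Abj c_MWH_Abo c_MWH_Hvj c_MWH_Lhl c_MWH_J2s
theorem c_MWH_Ek4 : Pool.Agent.MWH.Ek4Stmt :=
  Pool.Agent.MWH.H94.ek4 c_MWS_Lrn c_MWH_Lt3 c_MWH_Lt4 c_MWH_Bj4 c_MWH_Uev c_MWH_Vp1 c_MWH_Vp2 c_MWH_Jev c_MWH_Kp1 c_MWH_Kp2
theorem c_MWH_Di4 : Pool.Agent.MWH.Di4Stmt :=
  Pool.Agent.MWH.H70.di4 c_MWS_Tlm c_MWH_Swh c_MWH_Bj4 c_MWH_Edc c_MWH_El4 c_MWH_Eg4 c_MWH_Ek4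
theorem c_MWH_Bj5 : Pool.Agent.MWH.Bj5Stmt :=
  Pool.Agent.MWH.H8.bj5 
theorem c_MWH_El5 : Pool.Agent.MWH.El5Stmt :=
  Pool.Agent.MWH.H80.el5 c_MWS_Lrn c_MWH_Lt4 c_MWH_Bj5 c_MWH_Lhl c_MWH_Ux2 c_MWH_Ux3 c_MWH_Jx2 c_MWH_Jx3
theorem c_MWH_U11 : Pool.Agent.MWH.U11Stmt :=
  Pool.Agent.MWH.H59.u11 c_MWH_Ps0 c_MWH_Pin
theorem c_MWH_J11 : Pool.Agent.MWH.J11Stmt :=
  Pool.Agent.MWH.H23.j11 c_MWH_Jpc c_MWH_Abj c_MWH_Abo c_MWH_Lhr c_MWH_J2s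
theorem c_MWH_Eg5 : Pool.Agent.MWH.Eg5Stmt :=
  Pool.Agent.MWH.H89.eg5 c_MWS_Lrn c_MWH_Lt3 c_MWH_Lt4 c_MWH_Bj5 c_MWH_U10 c_MWH_U01 c_MWH_U11 c_MWH_J10 c_MWH_J01 c_MWH_J11
theorem c_MWH_Ek5 : Pool.Agent.MWH.Ek5Stmt :=
  Pool.Agent.MWH.H30K.ek5 c_MWS_Lrn c_MWH_Lt3 c_MWH_Lt4 c_MWH_Bj5 c_MWH_Uev c_MWH_Jev
theorem c_MWH_Di5 : Pool.Agent.MWH.Di5Stmt :=
  Pool.Agent.MWH.H36.di5 c_MWS_Tlm c_MWH_Swh c_MWH_Bj5 c_MWH_Edc c_MWH_El5 c_MWH_Eg5 c_MWH_Ek5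

end Pool.Agent.MWH.Comp1
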